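import Pool.Agent.Helper73.Moore.Layered

namespace Pool.Agent.Results.MP_ccd12e_gt.CountableLayering

open Set Topology TopologicalSpace Pool.Agent.Helper73.Moore

universe u

theorem layered_of_ordinal {X : Type u} [TopologicalSpace X] (ρ : Ordinal.{0})
    (hρ : ρ.card ≤ Cardinal.aleph0) (F : Ordinal.{0} → Set X) (h0 : F 0 = Set.univ)
    (hs : ∀ ξ < ρ, IsClosed (F (ξ + 1)) ∧ F (ξ + 1) ⊆ F ξ ∧
      MetrizableSpace ↥(F ξ \ F (ξ + 1)))
    (hl : ∀ ξ ≤ ρ, Order.IsSuccLimit ξ → F ξ = ⋂ η ∈ Set.Iio ξ, F η) :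
    ∀ ξ ≤ ρ, Layered X (F ξ) := by
  intro ξ
  induction ξ using Ordinal.limitRecOn with
  | zero =>
    intro _
    rw [h0]
    exact Layered.univ
  | add_one ξ ih =>
    intro hξ
    have hlt : ξ < ρ := lt_of_lt_of_le (lt_add_one ξ) hξ
    obtain ⟨h1, h2, h3⟩ := hs ξ hlt
    exact Layered.peel (F ξ) _ (ih hlt.le) h1 h2 h3
  | limit ξ hlim ih =>
    intro hξ
    have hc : (Set.Iio ξ).Countable := by
      rw [← Cardinal.le_aleph0_iff_set_countable, Cardinal.mk_Iio_ordinal]
      rw [Cardinal.lift_le_aleph0]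
      exact (Ordinal.card_le_card hξ).trans hρ
    have hne : (Set.Iio ξ).Nonempty := ⟨0, hlim.bot_lt⟩
    obtain ⟨f, hf⟩ := hc.exists_eq_range hne
    have he : F ξ = ⋂ n, F (f n) := by
      rw [hl ξ hξ hlim, hf]
      simp
    rw [he]
    refine Layered.inter _ fun n => ?_
    have hn : f n < ξ := by
      have : f n ∈ Set.Iio ξ := by rw [hf]; exact mem_range_self n
      exact this
    exact ih (f n) hn (hn.le.trans hξ)

/-- Locally compact, locally connected, countably paracompact Moore spaces that can be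
exhausted in countably many steps by metrizable pieces are metrizable. -/
theorem result (X : Type u) [TopologicalSpace X] [T3Space X] [LocallyCompactSpace X]
    [LocallyConnectedSpace X] (hcp : CountablyParacompact X) (hdev : Developable X) :
    (Layered X ∅ → MetrizableSpace X) ∧
    (∀ (ρ : Ordinal.{0}) (F : Ordinal.{0} → Set X), ρ.card ≤ Cardinal.aleph0 →
      F 0 = Set.univ →
      (∀ ξ < ρ, IsClosed (F (ξ + 1)) ∧ F (ξ + 1) ⊆ F ξ ∧
        MetrizableSpace ↥(F ξ \ F (ξ + 1))) →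
      (∀ ξ ≤ ρ, Order.IsSuccLimit ξ → F ξ = ⋂ η ∈ Set.Iio ξ, F η) →
      F ρ = ∅ → MetrizableSpace X) ∧
    (∀ U : ℕ → Set X, (∀ n, IsOpen (U n)) → (∀ n, MetrizableSpace ↥(U n)) →
      (⋃ n, U n) = Set.univ → MetrizableSpace X) ∧
    (∀ M : Set X, IsClosed M → MetrizableSpace ↥M → MetrizableSpace ↥(Mᶜ) →
      MetrizableSpace X) := by
  refine ⟨fun h => metrizable_of_layered hcp hdev h, ?_, ?_, ?_⟩
  · intro ρ F hρ h0 hs hl he
    have h := layered_of_ordinal ρ hρ F h0 hs hl ρ le_rfl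
    rw [he] at h
    exact metrizable_of_layered hcp hdev h
  · intro U hU hm hc
    exact metrizable_of_layered hcp hdev (layered_of_open_cover hU hm hc)
  · intro M hM hm hm'
    exact metrizable_of_layered hcp hdev (layered_of_closed hM hm hm')

end Pool.Agent.Results.MP_ccd12e_gt.CountableLayering
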